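import Pool.Agent.H93.KC.Targets

open Set Metric Filter Topology

namespace Pool.Agent.H87.KC
open Pool.Agent.H93.KC

lemma aF_cont : Continuous aF := by unfold aF; fun_prop
lemma bF_cont : Continuous bF := by unfold bF; fun_prop

lemma G1_closed : IsClosed G1 :=
  (isClosed_eq (continuous_id.sub continuous_const).norm continuous_const).inter
    (isClosed_le continuous_const (continuous_id.add continuous_const).norm)
lemma G2_closed : IsClosed G2 :=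
  (isClosed_eq (continuous_id.add continuous_const).norm continuous_const).inter
    (isClosed_le continuous_const (continuous_id.sub continuous_const).norm)
lemma G4_closed : IsClosed G4 :=
  (isClosed_eq (continuous_id.sub continuous_const).norm continuous_const).inter
    (isClosed_le continuous_const (continuous_id.add continuous_const).norm)

lemma norm_le3a {z : ℂ} (h : ‖z - 1‖ ≤ 2) : ‖z‖ ≤ 3 := by
  have h1 : ‖z‖ ≤ ‖z - 1‖ + ‖(1 : ℂ)‖ := by simpa using norm_add_le (z - 1) 1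
  rw [norm_one] at h1
  linarith
lemma norm_le3b {z : ℂ} (h : ‖z + 1‖ ≤ 2) : ‖z‖ ≤ 3 := by
  have h1 : ‖z‖ ≤ ‖z + 1‖ + ‖(1 : ℂ)‖ := by simpa using norm_sub_le (z + 1) 1
  rw [norm_one] at h1
  linarith
lemma norm_le12 {z : ℂ} (h : ‖z - 4‖ ≤ 8) : ‖z‖ ≤ 12 := by
  have h1 : ‖z‖ ≤ ‖z - 4‖ + ‖(4 : ℂ)‖ := by simpa using norm_add_le (z - 4) 4
  rw [show ‖(4 : ℂ)‖ = 4 by simp] at h1
  linarith

lemma aF_le {z : ℂ} (h : ‖z‖ ≤ 3) : ‖aF z‖ ≤ 8 := by
  have h1 : z.re ≤ 3 := (Complex.re_le_norm z).trans h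
  have h2 : ‖aF z‖ = Real.exp (z.re * Real.log 2) := by
    unfold aF
    rw [Complex.norm_exp, Complex.re_mul_ofReal]
  rw [h2]
  have h3 : (0 : ℝ) ≤ Real.log 2 := Real.log_nonneg (by norm_num)
  calc Real.exp (z.re * Real.log 2) ≤ Real.exp (3 * Real.log 2) :=
        Real.exp_le_exp.2 (mul_le_mul_of_nonneg_right h1 h3)
    _ = 8 := by
        rw [show (3 : ℝ) * Real.log 2 = Real.log (2 ^ 3) by rw [Real.log_pow]; norm_num,
          Real.exp_log (by norm_num)]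
        norm_num

lemma bF_le {z : ℂ} (h : ‖z‖ ≤ 3) : ‖bF z‖ ≤ 80 := by
  have h0 : (0 : ℝ) ≤ ‖z‖ := norm_nonneg z
  have h1 : ‖z ^ 2 - 1‖ ≤ 10 := by
    calc ‖z ^ 2 - 1‖ ≤ ‖z ^ 2‖ + ‖(1 : ℂ)‖ := norm_sub_le _ _
      _ = ‖z‖ ^ 2 + 1 := by rw [norm_pow, norm_one]
      _ ≤ 10 := by nlinarith
  unfold bF
  rw [norm_mul, show ‖(8 : ℂ)‖ = 8 by simp]
  linarith

lemma G1_le {z : ℂ} (h : z ∈ G1) : ‖z‖ ≤ 3 := norm_le3a h.1.le
lemma G2_le {z : ℂ} (h : z ∈ G2) : ‖z‖ ≤ 3 := norm_le3b h.1.le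
lemma G4_le {z : ℂ} (h : z ∈ G4) : ‖z‖ ≤ 12 := norm_le12 h.1.le

lemma G1_ne {z : ℂ} (h : z ∈ G1) : z ≠ 0 := by
  rintro rfl
  have h1 := h.1
  norm_num at h1
lemma G2_ne {z : ℂ} (h : z ∈ G2) : z ≠ 0 := by
  rintro rfl
  have h1 := h.1
  norm_num at h1
lemma G4_ne {z : ℂ} (h : z ∈ G4) : z ≠ 0 := by
  rintro rfl
  have h1 := h.1
  norm_num at h1

lemma G42_le {z : ℂ} (h : z ∈ G4 ∪ G2) : ‖z‖ ≤ 12 := by
  rcases h with h | h
  · exact G4_le h
  · exact (G2_le h).trans (by norm_num)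

lemma G42_ne {z : ℂ} (h : z ∈ G4 ∪ G2) : z ≠ 0 := by
  rcases h with h | h
  · exact G4_ne h
  · exact G2_ne h

lemma w_le {z w : ℂ} (hz : ‖z‖ ≤ 3) (h : ‖w - bF z‖ ≤ ‖aF z‖) : ‖w‖ ≤ 88 := by
  have h1 : ‖w‖ ≤ ‖w - bF z‖ + ‖bF z‖ := by simpa using norm_add_le (w - bF z) (bF z)
  have h2 := aF_le hz
  have h3 := bF_le hz
  linarith

lemma w_le40 {w : ℂ} (h : ‖w + 32‖ ≤ 8) : ‖w‖ ≤ 40 := by
  have h1 : ‖w‖ ≤ ‖w + 32‖ + ‖(32 : ℂ)‖ := by simpa using norm_sub_le (w + 32) 32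
  rw [show ‖(32 : ℂ)‖ = 32 by simp] at h1
  linarith

lemma comp_of {S : Set E} (hc : IsClosed S) (hb : ∀ x ∈ S, ‖x.1‖ ≤ 12 ∧ ‖x.2‖ ≤ 88) :
    IsCompact S := by
  refine Metric.isCompact_of_isClosed_isBounded hc ?_
  refine (Metric.isBounded_closedBall (x := (0 : E)) (r := 88)).subset ?_
  intro x hx
  rw [mem_closedBall_zero_iff, Prod.norm_def]
  exact max_le ((hb x hx).1.trans (by norm_num)) (hb x hx).2

theorem geo : T_GEO := by
  have c1 : Continuous (fun x : E => x.1) := continuous_fst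
  have c2 : Continuous (fun x : E => x.2) := continuous_snd
  have ca : Continuous (fun x : E => aF x.1) := aF_cont.comp c1
  have cb : Continuous (fun x : E => bF x.1) := bF_cont.comp c1
  have cab : IsClosed {x : E | ‖x.2 - bF x.1‖ ≤ ‖aF x.1‖} :=
    isClosed_le (c2.sub cb).norm ca.norm
  have cw1 : IsClosed {x : E | ‖x.2‖ ≤ 1} := isClosed_le c2.norm continuous_const
  have cw32 : IsClosed {x : E | ‖x.2 + 32‖ ≤ 8} :=
    isClosed_le (c2.add continuous_const).norm continuous_const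
  have cG1 : IsClosed {x : E | x.1 ∈ G1} := G1_closed.preimage c1
  have cG2 : IsClosed {x : E | x.1 ∈ G2} := G2_closed.preimage c1
  have cG4 : IsClosed {x : E | x.1 ∈ G4} := G4_closed.preimage c1
  have cG42 : IsClosed {x : E | x.1 ∈ G4 ∪ G2} := (G4_closed.union G2_closed).preimage c1
  have cG42' : IsClosed {x : E | x.2 ∈ G4 ∪ G2} := (G4_closed.union G2_closed).preimage c2
  have hX : ∀ x ∈ X, ‖x.1‖ ≤ 3 ∧ ‖x.2‖ ≤ 88 := by
    rintro x (⟨h1, h2⟩ | ⟨h1, h2⟩)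
    · exact ⟨norm_le3a h1, w_le (norm_le3a h1) h2⟩
    · exact ⟨norm_le3b h1, h2.trans (by norm_num)⟩
  have hYX : Y ⊆ X := by
    rintro x (⟨h1, h2⟩ | ⟨h1, h2⟩)
    · exact Or.inl ⟨h1.1.le, h2⟩
    · exact Or.inr ⟨h1.1.le, h2⟩
  have cY : IsClosed Y := (cG1.inter cab).union (cG2.inter cw1)
  have cX : IsClosed X :=
    ((isClosed_le (c1.sub continuous_const).norm continuous_const).inter cab).union
      ((isClosed_le (c1.add continuous_const).norm continuous_const).inter cw1)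
  refine ⟨comp_of cY fun x hx => ⟨((hX x (hYX hx)).1).trans (by norm_num), (hX x (hYX hx)).2⟩,
    ?_, hYX,
    comp_of cX fun x hx => ⟨((hX x hx).1).trans (by norm_num), (hX x hx).2⟩, ?_, ?_,
    comp_of ((cG1.inter cw32).union (cG2.inter cw1)) ?_, ?_,
    comp_of ((cG4.inter cw32).union (cG2.inter cw1)) ?_, ?_,
    comp_of (cG42.inter (isClosed_eq c2 continuous_const)) ?_, ?_,
    comp_of (cG42.inter (isClosed_eq c2 c1)) ?_, ?_,
    comp_of ((isClosed_eq c1 continuous_const).inter cG42') ?_, ?_⟩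
  · rintro x (⟨h1, h2⟩ | ⟨h1, h2⟩)
    · exact G1_ne h1
    · exact G2_ne h1
  · intro x hx
    rw [mem_ball_zero_iff, Prod.norm_def]
    exact max_lt ((hX x hx).1.trans_lt (by norm_num)) ((hX x hx).2.trans_lt (by norm_num))
  · refine Or.inr ⟨?_, ?_⟩
    · show ‖(1 / 2 : ℂ) + 1‖ ≤ 2
      rw [show (1 / 2 : ℂ) + 1 = ((3 / 2 : ℝ) : ℂ) by push_cast; norm_num, Complex.norm_real]
      norm_num
    · show ‖(0 : ℂ)‖ ≤ 1
      norm_num
  · rintro x (⟨h1, h2⟩ | ⟨h1, h2⟩)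
    · exact ⟨(G1_le h1).trans (by norm_num), (w_le40 h2).trans (by norm_num)⟩
    · exact ⟨(G2_le h1).trans (by norm_num), h2.trans (by norm_num)⟩
  · rintro x (⟨h1, h2⟩ | ⟨h1, h2⟩)
    · exact G1_ne h1
    · exact G2_ne h1
  · rintro x (⟨h1, h2⟩ | ⟨h1, h2⟩)
    · exact ⟨G4_le h1, (w_le40 h2).trans (by norm_num)⟩
    · exact ⟨(G2_le h1).trans (by norm_num), h2.trans (by norm_num)⟩
  · rintro x (⟨h1, h2⟩ | ⟨h1, h2⟩)
    · exact G4_ne h1
    · exact G2_ne h1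
  · rintro x ⟨h1, h2⟩
    have h3 : x.2 = 0 := h2
    exact ⟨G42_le h1, by rw [h3, norm_zero]; norm_num⟩
  · rintro x ⟨h1, h2⟩
    exact G42_ne h1
  · rintro x ⟨h1, h2⟩
    have h3 : x.2 = x.1 := h2
    exact ⟨G42_le h1, by rw [h3]; exact (G42_le h1).trans (by norm_num)⟩
  · rintro x ⟨h1, h2⟩
    exact G42_ne h1
  · rintro x ⟨h1, h2⟩
    have h3 : x.1 = 1 := h1
    exact ⟨by rw [h3, norm_one]; norm_num, (G42_le h2).trans (by norm_num)⟩
  · rintro x ⟨h1, h2⟩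
    have h3 : x.1 = 1 := h1
    show x.1 ≠ 0
    rw [h3]; exact one_ne_zero

end Pool.Agent.H87.KC
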