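import Pool.Agent.H93.KC.Targets

open Set Metric Filter Topology

namespace Pool.Agent.H87.KC
open Pool.Agent.H93.KC

theorem link (h : T_AUTB) : T_LINK := by
  intro A A' A'' a a' a'' hA' hZ ha' h1 h2 ε hε
  obtain ⟨Φ', Ψ', hΦ', h2a, h2b⟩ := h2 (ε / 2) (half_pos hε)
  have hcont : ∀ y ∈ Zne, ContinuousAt Φ' y := fun y hy =>
    ((h Φ' Ψ' hΦ').2.2.2.2.2.1 y hy).continuousAt
  have hK : IsCompact (A' ∪ {a'}) := hA'.union isCompact_singleton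
  have hKZ : A' ∪ {a'} ⊆ Zne := by
    intro y hy
    rcases hy with hy | hy
    · exact hZ hy
    · rw [mem_singleton_iff] at hy
      rw [hy]; exact ha'
  have hd : ∃ d > 0, ∀ y ∈ A' ∪ {a'}, ∀ y', dist y y' < d → dist (Φ' y) (Φ' y') < ε / 2 := by
    have h3 := hK.uniformContinuousAt_of_continuousAt Φ' (fun y hy => hcont y (hKZ hy))
      (Metric.dist_mem_uniformity (half_pos hε))
    obtain ⟨d, hd, h4⟩ := Metric.mem_uniformity_dist.1 h3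
    exact ⟨d, hd, fun y hy y' hyy => h4 hyy hy⟩
  obtain ⟨d, hd, hdd⟩ := hd
  obtain ⟨Φ, Ψ, hΦ, h1a, h1b⟩ := h1 d hd
  refine ⟨Φ' ∘ Φ, Ψ ∘ Ψ', Aut.comp _ _ _ _ hΦ hΦ', ?_, ?_⟩
  · intro x hx
    obtain ⟨y, hy, hxy⟩ := h1a x hx
    obtain ⟨z, hz, hyz⟩ := h2a y hy
    refine ⟨z, hz, ?_⟩
    have h5 := hdd y (Or.inl hy) (Φ x) (by rwa [dist_comm])
    calc dist (Φ' (Φ x)) z ≤ dist (Φ' (Φ x)) (Φ' y) + dist (Φ' y) z := dist_triangle _ _ _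
      _ < ε / 2 + ε / 2 := by rw [dist_comm (Φ' (Φ x))]; exact add_lt_add h5 hyz
      _ = ε := by ring
  · have h5 := hdd a' (Or.inr rfl) (Φ a) (by rwa [dist_comm])
    calc dist (Φ' (Φ a)) a'' ≤ dist (Φ' (Φ a)) (Φ' a') + dist (Φ' a') a'' := dist_triangle _ _ _
      _ < ε / 2 + ε / 2 := by rw [dist_comm (Φ' (Φ a))]; exact add_lt_add h5 h2b
      _ = ε := by ring

end Pool.Agent.H87.KC
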